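import Mathlib

/-!
# The arithmetic of the discriminant
-/

set_option autoImplicit false

namespace Pool.Helper99.BK

/-- `p²` for the primes `p ∣ d` with `p ∣ x`, and `p` for the primes `p ∣ d`, `p ∤ x`, with
`v_p(d)` odd. -/
def NN (x d : ℤ) : ℕ :=
  ∏ p ∈ d.natAbs.primeFactors,
    if (p : ℤ) ∣ x then p ^ 2 else p ^ (d.natAbs.factorization p % 2)

theorem ari_pos (x d : ℤ) : 0 < NN x d := by
  apply Finset.prod_pos
  intro p hp
  have := (Nat.prime_of_mem_primeFactors hp).pos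
  split_ifs <;> positivity

theorem ari_mono (x x' d d' e : ℤ) (he : e ≠ 0) (hd' : d' ≠ 0) (hx : x = e ^ 2 * x')
    (hd : d = e ^ 6 * d') : NN x' d' ≤ NN x d := by
  have hd0 : d ≠ 0 := by rw [hd]; positivity
  have hsub : d'.natAbs.primeFactors ⊆ d.natAbs.primeFactors := by
    apply Nat.primeFactors_mono
    · rw [hd, Int.natAbs_mul]
      exact dvd_mul_left _ _
    · exact Int.natAbs_ne_zero.2 hd0
  unfold NN
  calc _ ≤ ∏ p ∈ d'.natAbs.primeFactors,
      (if (p : ℤ) ∣ x then p ^ 2 else p ^ (d.natAbs.factorization p % 2)) := by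
        apply Finset.prod_le_prod (fun _ _ => Nat.zero_le _)
        intro p hp
        have hpp := Nat.prime_of_mem_primeFactors hp
        by_cases h1 : (p : ℤ) ∣ x'
        · have h2 : (p : ℤ) ∣ x := by rw [hx]; exact dvd_mul_of_dvd_right h1 _
          rw [if_pos h1, if_pos h2]
        · rw [if_neg h1]
          by_cases h2 : (p : ℤ) ∣ x
          · rw [if_pos h2]
            apply Nat.pow_le_pow_right hpp.pos
            have := Nat.mod_lt (d'.natAbs.factorization p) (by norm_num : 0 < 2)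
            omega
          · rw [if_neg h2]
            have h3 : ¬ p ∣ e.natAbs := by
              intro h3
              apply h2
              rw [hx]
              have : (p : ℤ) ∣ e := Int.natCast_dvd.2 h3
              exact dvd_mul_of_dvd_left (dvd_pow this (by norm_num)) _
            have h4 : d.natAbs.factorization p = d'.natAbs.factorization p := by
              rw [hd, Int.natAbs_mul, Int.natAbs_pow, Nat.factorization_mul
                (pow_ne_zero _ (Int.natAbs_ne_zero.2 he)) (Int.natAbs_ne_zero.2 hd')]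
              rw [Finsupp.add_apply, Nat.factorization_pow, Finsupp.smul_apply,
                Nat.factorization_eq_zero_of_not_dvd h3]
              simp
            rw [h4]
    _ ≤ _ := by
        apply Finset.prod_le_prod_of_subset_of_one_le' hsub
        intro p hp _
        have := (Nat.prime_of_mem_primeFactors hp).pos
        split_ifs
        · exact Nat.one_le_pow _ _ this
        · exact Nat.one_le_pow _ _ this

/-- remove sixth powers -/
theorem ari_reduce (n : ℕ) : ∀ x y d : ℤ, d.natAbs = n → d ≠ 0 → y ^ 2 = x ^ 3 + d →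
    ∃ e x' y' d' : ℤ, e ≠ 0 ∧ x = e ^ 2 * x' ∧ y = e ^ 3 * y' ∧ d = e ^ 6 * d' ∧ d' ≠ 0 ∧
      y' ^ 2 = x' ^ 3 + d' ∧ ∀ p : ℕ, p.Prime → (p : ℤ) ^ 2 ∣ x' → ¬ (p : ℤ) ^ 3 ∣ y' := by
  induction n using Nat.strong_induction_on with
  | _ n ih =>
    intro x y d hn hd hxy
    by_cases h : ∀ p : ℕ, p.Prime → (p : ℤ) ^ 2 ∣ x → ¬ (p : ℤ) ^ 3 ∣ y
    · exact ⟨1, x, y, d, one_ne_zero, by ring, by ring, by ring, hd, hxy, h⟩
    · push Not at h
      obtain ⟨p, hp, ⟨x1, hx1⟩, ⟨y1, hy1⟩⟩ := h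
      have hp0 : (p : ℤ) ≠ 0 := by exact_mod_cast hp.ne_zero
      have hp2 : 2 ≤ (p : ℤ) := by exact_mod_cast hp.two_le
      have hd1 : d = (p : ℤ) ^ 6 * (y1 ^ 2 - x1 ^ 3) := by
        have : d = y ^ 2 - x ^ 3 := by linarith
        rw [this, hx1, hy1]; ring
      set d1 : ℤ := y1 ^ 2 - x1 ^ 3 with hd1'
      have hd10 : d1 ≠ 0 := by
        intro h0
        rw [h0, mul_zero] at hd1
        exact hd hd1
      have hlt : d1.natAbs < n := by
        rw [← hn, hd1, Int.natAbs_mul]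
        have h1 : 1 < ((p : ℤ) ^ 6).natAbs := by
          rw [Int.natAbs_pow, Int.natAbs_natCast]
          exact Nat.one_lt_pow (by norm_num) hp.one_lt
        have h2 : 0 < d1.natAbs := Int.natAbs_pos.2 hd10
        calc d1.natAbs = 1 * d1.natAbs := (one_mul _).symm
          _ < _ := Nat.mul_lt_mul_of_pos_right h1 h2
      obtain ⟨e, x', y', d', he, h1, h2, h3, h4, h5, h6⟩ := ih _ hlt x1 y1 d1 rfl hd10 (by
        rw [hd1']; ring)
      refine ⟨p * e, x', y', d', mul_ne_zero hp0 he, ?_, ?_, ?_, h4, h5, h6⟩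
      · rw [hx1, h1]; ring
      · rw [hy1, h2]; ring
      · rw [hd1, h3]; ring

theorem ari_val (x y d : ℤ) (p : ℕ) (hp : p.Prime) (hd : d ≠ 0) (hxy : y ^ 2 = x ^ 3 + d)
    (hred : (p : ℤ) ^ 2 ∣ x → ¬ (p : ℤ) ^ 3 ∣ y) (hpx : (p : ℤ) ∣ x) :
    d.natAbs.factorization p ≤ 2 + (if (p : ℤ) ^ 2 ∣ y then 2 else 0) := by
  have hpZ : Prime (p : ℤ) := Nat.prime_iff_prime_int.1 hp
  have key : ∀ k : ℕ, ¬ (p : ℤ) ^ (k + 1) ∣ d → d.natAbs.factorization p ≤ k := by
    intro k hk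
    by_contra hlt
    push Not at hlt
    apply hk
    have h1 : p ^ (k + 1) ∣ d.natAbs :=
      (hp.pow_dvd_iff_le_factorization (Int.natAbs_ne_zero.2 hd)).2 hlt
    have h2 := Int.natCast_dvd.2 h1
    push_cast at h2
    exact h2
  -- valuation facts
  have v1 : ∀ (k : ℕ) (z : ℤ), (p : ℤ) ^ (2 * k + 1) ∣ z ^ 2 → (p : ℤ) ^ (k + 1) ∣ z := by
    intro k
    induction k with
    | zero =>
      intro z hz
      have h1 : (p : ℤ) ∣ z ^ 2 := by simpa using hz
      simpa using hpZ.dvd_of_dvd_pow h1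
    | succ k ih =>
      intro z hz
      have h1 : (p : ℤ) ∣ z ^ 2 := (dvd_pow_self _ (by omega)).trans hz
      obtain ⟨z1, rfl⟩ := hpZ.dvd_of_dvd_pow h1
      have h2 : (p : ℤ) ^ (2 * k + 1) ∣ z1 ^ 2 := by
        have e1 : (p : ℤ) ^ (2 * (k + 1) + 1) = (p : ℤ) ^ 2 * (p : ℤ) ^ (2 * k + 1) := by ring
        have e2 : ((p : ℤ) * z1) ^ 2 = (p : ℤ) ^ 2 * z1 ^ 2 := by ring
        rw [e1, e2] at hz
        exact (mul_dvd_mul_iff_left (pow_ne_zero 2 hpZ.ne_zero)).1 hz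
      have e3 : (p : ℤ) ^ (k + 1 + 1) = (p : ℤ) * (p : ℤ) ^ (k + 1) := by ring
      rw [e3]
      exact mul_dvd_mul_left _ (ih z1 h2)
  by_cases hy2 : (p : ℤ) ^ 2 ∣ y
  · rw [if_pos hy2]
    apply key 4
    intro h5
    -- p^4 ∣ x^3, so p^2 ∣ x
    have hx2 : (p : ℤ) ^ 2 ∣ x := by
      have h1 : (p : ℤ) ^ 4 ∣ x ^ 3 := by
        have h2 : (p : ℤ) ^ 4 ∣ y ^ 2 := by
          have := pow_dvd_pow_of_dvd hy2 2
          rwa [← pow_mul] at this
        have h3 : (p : ℤ) ^ 4 ∣ d := (pow_dvd_pow _ (by norm_num)).trans h5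
        have h4 : x ^ 3 = y ^ 2 - d := by linarith
        rw [h4]
        exact dvd_sub h2 h3
      obtain ⟨x1, rfl⟩ := hpx
      have h2 : (p : ℤ) ∣ x1 ^ 3 := by
        have e1 : (p : ℤ) ^ 4 = (p : ℤ) ^ 3 * p := by ring
        have e2 : ((p : ℤ) * x1) ^ 3 = (p : ℤ) ^ 3 * x1 ^ 3 := by ring
        rw [e1, e2] at h1
        exact (mul_dvd_mul_iff_left (pow_ne_zero 3 hpZ.ne_zero)).1 h1
      have h3 := hpZ.dvd_of_dvd_pow h2
      rw [pow_two]
      exact mul_dvd_mul_left _ h3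
    apply hred hx2
    have h1 : (p : ℤ) ^ 5 ∣ y ^ 2 := by
      rw [hxy]
      apply dvd_add _ h5
      have := pow_dvd_pow_of_dvd hx2 3
      rw [← pow_mul] at this
      exact (pow_dvd_pow _ (by norm_num)).trans this
    exact v1 2 y h1
  · rw [if_neg hy2]
    apply key 2
    intro h3
    apply hy2
    apply v1 1 y
    rw [hxy]
    exact dvd_add (pow_dvd_pow_of_dvd hpx 3) h3

theorem ari_red_case (x y d : ℤ) (hd : d ≠ 0) (hxy : y ^ 2 = x ^ 3 + d)
    (hred : ∀ p : ℕ, p.Prime → (p : ℤ) ^ 2 ∣ x → ¬ (p : ℤ) ^ 3 ∣ y) :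
    ∃ M r : ℤ, M ≠ 0 ∧ M ∣ 3 * (r ^ 2 - x) ∧ M ^ 2 ∣ r ^ 3 - 3 * x * r + 2 * y ∧
      |d| ≤ NN x d * M ^ 2 := by
  classical
  set P := d.natAbs.primeFactors with hP
  set fac := d.natAbs.factorization with hfac
  set m : ℤ := ∏ p ∈ P.filter (fun p : ℕ => ¬ (p : ℤ) ∣ x), (p : ℤ) ^ (fac p / 2) with hm
  set g : ℤ := ∏ p ∈ P.filter (fun p : ℕ => (p : ℤ) ∣ x ∧ (p : ℤ) ^ 2 ∣ y), (p : ℤ) with hg
  have hprime : ∀ p ∈ P, p.Prime := fun p hp => Nat.prime_of_mem_primeFactors hp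
  have hcopr : ∀ p ∈ P, ∀ q ∈ P, p ≠ q → IsCoprime (p : ℤ) (q : ℤ) := by
    intro p hp q hq hpq
    exact Nat.isCoprime_iff_coprime.2 ((Nat.coprime_primes (hprime p hp) (hprime q hq)).2 hpq)
  -- m is coprime to x
  have hmx : IsCoprime m x := by
    rw [hm]
    apply IsCoprime.prod_left
    intro p hp
    rw [Finset.mem_filter] at hp
    apply IsCoprime.pow_left
    exact (Prime.coprime_iff_not_dvd (Nat.prime_iff_prime_int.1 (hprime p hp.1))).2 hp.2
  have hm0 : m ≠ 0 := by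
    rw [hm]
    apply Finset.prod_ne_zero_iff.2
    intro p hp
    rw [Finset.mem_filter] at hp
    exact pow_ne_zero _ (by exact_mod_cast (hprime p hp.1).ne_zero)
  have hg0 : g ≠ 0 := by
    rw [hg]
    apply Finset.prod_ne_zero_iff.2
    intro p hp
    rw [Finset.mem_filter] at hp
    exact_mod_cast (hprime p hp.1).ne_zero
  -- m^2 divides d
  have hdabs : (d.natAbs : ℤ) = ∏ p ∈ P, (p : ℤ) ^ (fac p) := by
    have := Nat.prod_factorization_pow_eq_self (Int.natAbs_ne_zero.2 hd)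
    rw [Nat.prod_factorization_eq_prod_primeFactors] at this
    conv_lhs => rw [← this]
    push_cast
    rfl
  have hm2 : m ^ 2 ∣ d := by
    have h1 : m ^ 2 = ∏ p ∈ P.filter (fun p : ℕ => ¬ (p : ℤ) ∣ x), (p : ℤ) ^ (2 * (fac p / 2)) := by
      rw [hm, ← Finset.prod_pow]
      apply Finset.prod_congr rfl
      intro p _
      rw [← pow_mul, mul_comm]
    have h2 : m ^ 2 ∣ (d.natAbs : ℤ) := by
      rw [h1, hdabs]
      calc _ ∣ ∏ p ∈ P.filter (fun p : ℕ => ¬ (p : ℤ) ∣ x), (p : ℤ) ^ (fac p) := by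
            apply Finset.prod_dvd_prod_of_dvd
            intro p _
            exact pow_dvd_pow _ (by omega)
        _ ∣ _ := Finset.prod_dvd_prod_of_subset _ _ _ (Finset.filter_subset _ _)
    exact Int.dvd_natAbs.1 h2
  have hgx : g ∣ x := by
    rw [hg]
    apply Finset.prod_dvd_of_coprime
    · intro p hp q hq hpq
      have hp' := (Finset.mem_filter.1 (Finset.mem_coe.1 hp)).1
      have hq' := (Finset.mem_filter.1 (Finset.mem_coe.1 hq)).1
      exact hcopr p hp' q hq' hpq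
    · intro p hp
      exact (Finset.mem_filter.1 hp).2.1
  have hgy : g ^ 2 ∣ y := by
    rw [hg, ← Finset.prod_pow]
    apply Finset.prod_dvd_of_coprime
    · intro p hp q hq hpq
      have hp' := (Finset.mem_filter.1 (Finset.mem_coe.1 hp)).1
      have hq' := (Finset.mem_filter.1 (Finset.mem_coe.1 hq)).1
      exact IsCoprime.pow (hcopr p hp' q hq' hpq)
    · intro p hp
      exact (Finset.mem_filter.1 hp).2.2
  have hgm : IsCoprime g m := (hmx.of_isCoprime_of_dvd_right hgx).symm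
  -- the residue r
  have hco : IsCoprime (m ^ 2) (x * g ^ 2) := by
    apply IsCoprime.pow_left
    apply IsCoprime.mul_right hmx
    exact hgm.symm.pow_right
  obtain ⟨a, b, hab⟩ := hco
  set r : ℤ := g ^ 2 * b * y with hr
  have hrx : m ^ 2 ∣ x * r - y := ⟨-a * y, by rw [hr]; linear_combination y * hab⟩
  have hrg : g ^ 2 ∣ r := ⟨b * y, by rw [hr]; ring⟩
  have hm2x : IsCoprime (m ^ 2) (x ^ 3) := hmx.pow
  have hm2x2 : IsCoprime (m ^ 2) (x ^ 2) := hmx.pow
  have c1 : m ^ 2 ∣ r ^ 2 - x := by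
    apply hm2x2.dvd_of_dvd_mul_left
    have e : x ^ 2 * (r ^ 2 - x) = (x * r - y) * (x * r + y) + d := by
      linear_combination hxy
    rw [e]
    exact dvd_add (dvd_mul_of_dvd_left hrx _) hm2
  have c2 : m ^ 2 ∣ r ^ 3 - 3 * x * r + 2 * y := by
    apply hm2x.dvd_of_dvd_mul_left
    have e : x ^ 3 * (r ^ 3 - 3 * x * r + 2 * y) =
        (x * r - y) * ((x * r) ^ 2 + (x * r) * y + y ^ 2 - 3 * x ^ 3) + d * y := by
      linear_combination y * hxy
    rw [e]
    exact dvd_add (dvd_mul_of_dvd_left hrx _) (dvd_mul_of_dvd_left hm2 _)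
  have hgg : g ∣ g ^ 2 := dvd_pow_self _ (by norm_num)
  have c3 : g ∣ r ^ 2 - x := by
    apply dvd_sub _ hgx
    exact (hgg.trans hrg).trans (dvd_pow_self _ (by norm_num))
  have c4 : g ^ 2 ∣ r ^ 3 - 3 * x * r + 2 * y := by
    apply dvd_add
    · apply dvd_sub
      · exact hrg.trans (dvd_pow_self _ (by norm_num))
      · exact dvd_mul_of_dvd_right hrg _
    · exact dvd_mul_of_dvd_right hgy _
  refine ⟨g * m, r, mul_ne_zero hg0 hm0, ?_, ?_, ?_⟩
  · apply dvd_mul_of_dvd_right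
    exact hgm.mul_dvd c3 ((dvd_pow_self m (by norm_num : 2 ≠ 0)).trans c1)
  · rw [mul_pow]
    exact (IsCoprime.pow hgm).mul_dvd c4 c2
  · -- the size
    rw [Int.abs_eq_natAbs, hdabs]
    have e1 : (NN x d : ℤ) = ∏ p ∈ P, (if (p : ℤ) ∣ x then (p : ℤ) ^ 2 else (p : ℤ) ^ (fac p % 2)) := by
      unfold NN
      rw [Nat.cast_prod]
      apply Finset.prod_congr rfl
      intro p _
      split_ifs <;> push_cast <;> rfl
    have e2 : m ^ 2 = ∏ p ∈ P, (if (p : ℤ) ∣ x then (1 : ℤ) else (p : ℤ) ^ (2 * (fac p / 2))) := by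
      rw [hm, ← Finset.prod_pow, Finset.prod_filter]
      apply Finset.prod_congr rfl
      intro p _
      by_cases h : (p : ℤ) ∣ x
      · rw [if_neg (not_not.2 h), if_pos h]
      · rw [if_pos h, if_neg h, ← pow_mul, mul_comm]
    have e3 : g ^ 2 = ∏ p ∈ P, (if (p : ℤ) ∣ x ∧ (p : ℤ) ^ 2 ∣ y then (p : ℤ) ^ 2 else 1) := by
      rw [hg, ← Finset.prod_pow, Finset.prod_filter]
    rw [mul_pow, e1, e2, e3, ← Finset.prod_mul_distrib, ← Finset.prod_mul_distrib]
    apply Finset.prod_le_prod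
    · intro p _
      positivity
    · intro p hp
      have hpp := hprime p hp
      have hp1 : (1 : ℤ) ≤ p := by exact_mod_cast hpp.one_le
      by_cases h : (p : ℤ) ∣ x
      · rw [if_pos h, if_pos h, mul_one]
        have hv := ari_val x y d p hpp hd hxy (hred p hpp) h
        by_cases h2 : (p : ℤ) ^ 2 ∣ y
        · rw [if_pos ⟨h, h2⟩]
          rw [if_pos h2] at hv
          calc (p : ℤ) ^ (fac p) ≤ (p : ℤ) ^ (2 + 2) := pow_le_pow_right₀ hp1 hv
            _ = _ := by ring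
        · rw [if_neg (fun h3 => h2 h3.2)]
          rw [if_neg h2] at hv
          calc (p : ℤ) ^ (fac p) ≤ (p : ℤ) ^ (2 + 0) := pow_le_pow_right₀ hp1 hv
            _ = _ := by ring
      · rw [if_neg h, if_neg h, if_neg (fun h3 => h h3.1), one_mul, ← pow_add]
        apply pow_le_pow_right₀ hp1
        omega

/-- Arithmetic of the discriminant. -/
theorem st_ARI (x y d : ℤ) (hd : d ≠ 0) (hxy : y ^ 2 = x ^ 3 + d) :
    ∃ e x' y' M r : ℤ, e ≠ 0 ∧ M ≠ 0 ∧ x = e ^ 2 * x' ∧ y = e ^ 3 * y' ∧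
      M ∣ 3 * (r ^ 2 - x') ∧ M ^ 2 ∣ r ^ 3 - 3 * x' * r + 2 * y' ∧
      |x' ^ 3 - y' ^ 2| ≤ NN x d * M ^ 2 := by
  obtain ⟨e, x', y', d', he, h1, h2, h3, h4, h5, h6⟩ := ari_reduce _ x y d rfl hd hxy
  obtain ⟨M, r, hM, k1, k2, k3⟩ := ari_red_case x' y' d' h4 h5 h6
  refine ⟨e, x', y', M, r, he, hM, h1, h2, k1, k2, ?_⟩
  have e1 : x' ^ 3 - y' ^ 2 = -d' := by linarith
  rw [e1, abs_neg]
  refine k3.trans ?_
  have := ari_mono x x' d d' e he h4 h1 h3
  have h7 : (NN x' d' : ℤ) ≤ NN x d := by exact_mod_cast this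
  exact mul_le_mul_of_nonneg_right h7 (sq_nonneg M)

/-- the bound `NN x d ≤ |d|` -/
theorem ari_le (x y d : ℤ) (hd : d ≠ 0) (hxy : y ^ 2 = x ^ 3 + d) : NN x d ≤ d.natAbs := by
  have h0 := Nat.prod_factorization_pow_eq_self (Int.natAbs_ne_zero.2 hd)
  rw [Nat.prod_factorization_eq_prod_primeFactors] at h0
  conv_rhs => rw [← h0]
  unfold NN
  apply Finset.prod_le_prod (fun _ _ => Nat.zero_le _)
  intro p hp
  have hpp := Nat.prime_of_mem_primeFactors hp
  have hpZ : Prime (p : ℤ) := Nat.prime_iff_prime_int.1 hpp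
  have hpd : (p : ℤ) ∣ d := Int.natCast_dvd.2 (Nat.dvd_of_mem_primeFactors hp)
  split_ifs with h
  · apply Nat.pow_le_pow_right hpp.pos
    apply (hpp.pow_dvd_iff_le_factorization (Int.natAbs_ne_zero.2 hd)).1
    have hy : (p : ℤ) ∣ y := by
      apply hpZ.dvd_of_dvd_pow (n := 2)
      rw [hxy]
      exact dvd_add (h.trans (dvd_pow_self _ (by norm_num))) hpd
    have h2 : (p : ℤ) ^ 2 ∣ d := by
      have e : d = y ^ 2 - x ^ 3 := by linarith
      rw [e]
      apply dvd_sub (pow_dvd_pow_of_dvd hy 2)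
      exact (pow_dvd_pow_of_dvd h 2).trans (pow_dvd_pow _ (by norm_num))
    apply Int.natCast_dvd.1
    push_cast
    exact h2
  · apply Nat.pow_le_pow_right hpp.pos
    exact Nat.mod_le _ _

end Pool.Helper99.BK
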