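import Pool.Agent.Helper99.BK.Stmts
import Pool.Agent.Helper7.BK.DISC

/-!
# The discriminant of a cubic field, with the index of a larger order
-/

set_option autoImplicit false

namespace Pool.Helper99.BK

open NumberField

def ST_DISCP : Prop := ∀ (K : Type) [Field K] [NumberField K], Module.finrank ℚ K = 3 → ∀ (β : K)
    (x y M r : ℤ), β ^ 3 - 3 * (x : K) * β + 2 * (y : K) = 0 → (∀ q : ℚ, β ≠ algebraMap ℚ K q) →
    M ≠ 0 → M ∣ 3 * (r ^ 2 - x) → M ^ 2 ∣ r ^ 3 - 3 * x * r + 2 * y →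
    |(NumberField.discr K : ℝ)| * (M : ℝ) ^ 2 ≤ 108 * |((x ^ 3 - y ^ 2 : ℤ) : ℝ)|

theorem discp_int (K : Type) [Field K] [NumberField K] (β : K) (x y M r : ℤ)
    (hβ : β ^ 3 - 3 * (x : K) * β + 2 * (y : K) = 0) (hM : M ≠ 0)
    (h1 : M ∣ 3 * (r ^ 2 - x)) (h2 : M ^ 2 ∣ r ^ 3 - 3 * x * r + 2 * y) :
    IsIntegral ℤ ((β ^ 2 + (r : K) * β + ((r : K) ^ 2 - 3 * (x : K))) / (M : K)) := by
  obtain ⟨A1, hA⟩ := h1
  obtain ⟨B1, hB⟩ := h2
  have hMK : (M : K) ≠ 0 := by exact_mod_cast hM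
  have hA' : 3 * ((r : K) ^ 2 - x) = M * A1 := by exact_mod_cast congrArg (Int.cast : ℤ → K) hA
  have hB' : (r : K) ^ 3 - 3 * x * r + 2 * y = (M : K) ^ 2 * B1 := by
    exact_mod_cast congrArg (Int.cast : ℤ → K) hB
  refine ⟨Polynomial.X ^ 3 - Polynomial.C A1 * Polynomial.X ^ 2 +
    Polynomial.C (3 * r * B1) * Polynomial.X - Polynomial.C (M * B1 ^ 2), ?_, ?_⟩
  · monicity!
  · simp only [Polynomial.eval₂_add, Polynomial.eval₂_sub, Polynomial.eval₂_mul,
        Polynomial.eval₂_pow, Polynomial.eval₂_X, Polynomial.eval₂_C]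
    simp only [eq_intCast]
    push_cast
    set Ω : K := β ^ 2 + (r : K) * β + ((r : K) ^ 2 - 3 * (x : K)) with hΩ
    have hE : Ω ^ 3 - (M * A1 : K) * Ω ^ 2 + 3 * r * ((M : K) ^ 2 * B1) * Ω -
        ((M : K) ^ 2 * B1) ^ 2 = 0 := by
      rw [← hA', ← hB', hΩ]
      linear_combination ((β ^ 2 + (r : K) * β + ((r : K) ^ 2 - 3 * (x : K))) * (β - r) -
        ((r : K) ^ 3 - 3 * x * r + 2 * y) +
        3 * r * (β ^ 2 + (r : K) * β + ((r : K) ^ 2 - 3 * (x : K)))) * hβ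
    have : (Ω / M) ^ 3 - A1 * (Ω / M) ^ 2 + 3 * r * B1 * (Ω / M) - M * B1 ^ 2 =
        (Ω ^ 3 - (M * A1 : K) * Ω ^ 2 + 3 * r * ((M : K) ^ 2 * B1) * Ω -
        ((M : K) ^ 2 * B1) ^ 2) / (M : K) ^ 3 := by
      field_simp
    rw [this, hE, zero_div]

/-- The discriminant. -/
theorem st_DISCP : ST_DISCP := by
  intro K _ _ h3 β x y M0 r hβ hq hM0 hd1 hd2
  have hint : IsIntegral ℤ β := by
    refine ⟨Polynomial.X ^ 3 - Polynomial.C (3 * x) * Polynomial.X + Polynomial.C (2 * y), ?_, ?_⟩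
    · monicity!
    · simp only [Polynomial.eval₂_add, Polynomial.eval₂_sub, Polynomial.eval₂_mul,
        Polynomial.eval₂_pow, Polynomial.eval₂_X, Polynomial.eval₂_C]
      rw [eq_intCast, eq_intCast]
      push_cast
      exact hβ
  -- the powers of β
  have hdeg : (minpoly ℚ β).natDegree = 3 := by
    have h1 : (minpoly ℚ β).natDegree ∣ 3 := by
      rw [← h3]
      exact minpoly.degree_dvd (Algebra.IsIntegral.isIntegral β)
    rcases (Nat.dvd_prime Nat.prime_three).1 h1 with h2 | h2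
    · obtain ⟨q, hq'⟩ := minpoly.natDegree_eq_one_iff.1 h2
      exact absurd hq'.symm (hq q)
    · exact h2
  have hli := linearIndependent_pow (K := ℚ) β
  rw [hdeg] at hli
  have hcard : Fintype.card (Fin 3) = Module.finrank ℚ K := by rw [h3]; rfl
  let B : Module.Basis (Fin 3) ℚ K := basisOfLinearIndependentOfCardEqFinrank hli hcard
  have hB : ∀ i, B i = β ^ (i : ℕ) := fun i => by
    simp [B]
  have hβ3 : β ^ 3 = (3 * x : ℚ) • β - (2 * y : ℚ) • (1 : K) := by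
    rw [Algebra.smul_def, Algebra.smul_def]
    simp only [map_mul, map_ofNat, map_intCast, mul_one]
    linear_combination hβ
  -- the matrix of multiplication by β
  let M : Matrix (Fin 3) (Fin 3) ℚ := !![0, 0, -(2 * y); 1, 0, 3 * x; 0, 1, 0]
  have hM : Algebra.leftMulMatrix B β = M := by
    refine Matrix.ext fun i j => ?_
    rw [Algebra.leftMulMatrix_eq_repr_mul]
    have h0 : β * B 0 = B 1 := by rw [hB, hB]; simp
    have h1 : β * B 1 = B 2 := by rw [hB, hB]; simp [pow_two]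
    have h2 : β * B 2 = (3 * x : ℚ) • B 1 - (2 * y : ℚ) • B 0 := by
      rw [hB, hB, hB]
      have : β * β ^ ((2 : Fin 3) : ℕ) = β ^ 3 := by
        show β * β ^ 2 = β ^ 3
        ring
      rw [this, hβ3]
      simp
    fin_cases j
    · show (B.repr (β * B 0)) i = M i 0
      rw [h0]
      fin_cases i <;> simp [M]
    · show (B.repr (β * B 1)) i = M i 1
      rw [h1]
      fin_cases i <;> simp [M]
    · show (B.repr (β * B 2)) i = M i 2
      rw [h2]
      fin_cases i <;> simp [M]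
  have htr : ∀ n : ℕ, Algebra.trace ℚ K (β ^ n) = Matrix.trace (M ^ n) := by
    intro n
    rw [Algebra.trace_eq_matrix_trace B, map_pow, hM]
  have t0 : Algebra.trace ℚ K (β ^ 0) = 3 := by
    rw [htr]; simp
  have t1 : Algebra.trace ℚ K (β ^ 1) = 0 := by
    rw [htr]; simp [M, Matrix.trace_fin_three]
  have t2 : Algebra.trace ℚ K (β ^ 2) = 6 * x := by
    rw [htr]; simp [M, Matrix.trace_fin_three, pow_succ, Matrix.mul_apply, Fin.sum_univ_three]
    ring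
  have t3 : Algebra.trace ℚ K (β ^ 3) = -(6 * y) := by
    rw [htr]; simp [M, Matrix.trace_fin_three, pow_succ, Matrix.mul_apply, Fin.sum_univ_three]
    ring
  have t4 : Algebra.trace ℚ K (β ^ 4) = 18 * x ^ 2 := by
    rw [htr]; simp [M, Matrix.trace_fin_three, pow_succ, Matrix.mul_apply, Fin.sum_univ_three]
    ring
  -- integral version
  let b : 𝓞 K := ⟨β, hint⟩
  have hb : ∀ n : ℕ, ((b ^ n : 𝓞 K) : K) = β ^ n := fun n => by
    rfl
  have hZ : ∀ n : ℕ, ((Algebra.trace ℤ (𝓞 K) (b ^ n) : ℤ) : ℚ) = Algebra.trace ℚ K (β ^ n) := by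
    intro n
    rw [Algebra.coe_trace_int, hb]
  have u0 : Algebra.trace ℤ (𝓞 K) (b ^ 0) = 3 := by
    have := hZ 0; rw [t0] at this; exact_mod_cast this
  have u1 : Algebra.trace ℤ (𝓞 K) (b ^ 1) = 0 := by
    have := hZ 1; rw [t1] at this; exact_mod_cast this
  have u2 : Algebra.trace ℤ (𝓞 K) (b ^ 2) = 6 * x := by
    have := hZ 2; rw [t2] at this; exact_mod_cast this
  have u3 : Algebra.trace ℤ (𝓞 K) (b ^ 3) = -(6 * y) := by
    have := hZ 3; rw [t3] at this; exact_mod_cast this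
  have u4 : Algebra.trace ℤ (𝓞 K) (b ^ 4) = 18 * x ^ 2 := by
    have := hZ 4; rw [t4] at this; exact_mod_cast this
  let v : Fin 3 → 𝓞 K := fun i => b ^ (i : ℕ)
  have hdv : Algebra.discr ℤ v = 108 * (x ^ 3 - y ^ 2) := by
    rw [Algebra.discr_def]
    have e : ∀ i j : Fin 3, Algebra.traceMatrix ℤ v i j = Algebra.trace ℤ (𝓞 K) (b ^ ((i : ℕ) + j)) := by
      intro i j
      rw [Algebra.traceMatrix_apply, Algebra.traceForm_apply, pow_add]
    rw [Matrix.det_fin_three]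
    simp only [e]
    show Algebra.trace ℤ (𝓞 K) (b ^ 0) * Algebra.trace ℤ (𝓞 K) (b ^ 2) * Algebra.trace ℤ (𝓞 K) (b ^ 4) -
      Algebra.trace ℤ (𝓞 K) (b ^ 0) * Algebra.trace ℤ (𝓞 K) (b ^ 3) * Algebra.trace ℤ (𝓞 K) (b ^ 3) -
      Algebra.trace ℤ (𝓞 K) (b ^ 1) * Algebra.trace ℤ (𝓞 K) (b ^ 1) * Algebra.trace ℤ (𝓞 K) (b ^ 4) +
      Algebra.trace ℤ (𝓞 K) (b ^ 1) * Algebra.trace ℤ (𝓞 K) (b ^ 3) * Algebra.trace ℤ (𝓞 K) (b ^ 2) +
      Algebra.trace ℤ (𝓞 K) (b ^ 2) * Algebra.trace ℤ (𝓞 K) (b ^ 1) * Algebra.trace ℤ (𝓞 K) (b ^ 3) -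
      Algebra.trace ℤ (𝓞 K) (b ^ 2) * Algebra.trace ℤ (𝓞 K) (b ^ 2) * Algebra.trace ℤ (𝓞 K) (b ^ 2) =
      108 * (x ^ 3 - y ^ 2)
    rw [u0, u1, u2, u3, u4]
    ring
  -- the bigger order
  have hωi := discp_int K β x y M0 r hβ hM0 hd1 hd2
  let w : 𝓞 K := ⟨_, hωi⟩
  have hM0K : (M0 : K) ≠ 0 := by exact_mod_cast hM0
  have hw : (M0 : 𝓞 K) * w = b ^ 2 + (r : 𝓞 K) * b + ((r : 𝓞 K) ^ 2 - 3 * (x : 𝓞 K)) := by
    apply FaithfulSMul.algebraMap_injective (𝓞 K) K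
    simp only [map_add, map_sub, map_mul, map_pow, map_intCast, map_ofNat]
    have e1 : algebraMap (𝓞 K) K w =
      (β ^ 2 + (r : K) * β + ((r : K) ^ 2 - 3 * (x : K))) / (M0 : K) := rfl
    have e2 : algebraMap (𝓞 K) K b = β := rfl
    rw [e1, e2, mul_div_cancel₀ _ hM0K]
  let v' : Fin 3 → 𝓞 K := ![1, b, w]
  let Q : Matrix (Fin 3) (Fin 3) ℤ := !![1, 0, 0; 0, 1, 0; -(r ^ 2 - 3 * x), -r, M0]
  have hvv : v = Matrix.mulVec (Q.map (algebraMap ℤ (𝓞 K))) v' := by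
    funext i
    fin_cases i
    · simp [v, v', Q, Matrix.mulVec, dotProduct, Fin.sum_univ_three]
    · simp [v, v', Q, Matrix.mulVec, dotProduct, Fin.sum_univ_three]
    · simp only [Matrix.mulVec, dotProduct, Fin.sum_univ_three, v, v', Q]
      simp
      linear_combination -hw
  have hQ : Q.det = M0 := by
    simp [Q, Matrix.det_fin_three]
  have hdQ : Algebra.discr ℤ v = M0 ^ 2 * Algebra.discr ℤ v' := by
    rw [hvv, Algebra.discr_of_matrix_mulVec, hQ]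
  -- comparison with the integral basis
  have hcard2 : Fintype.card (Module.Free.ChooseBasisIndex ℤ (𝓞 K)) = 3 := by
    rw [← Module.finrank_eq_card_chooseBasisIndex, RingOfIntegers.rank, h3]
  let e : Module.Free.ChooseBasisIndex ℤ (𝓞 K) ≃ Fin 3 := Fintype.equivFinOfCardEq hcard2
  let b' : Module.Basis (Fin 3) ℤ (𝓞 K) := (RingOfIntegers.basis K).reindex e
  let P : Matrix (Fin 3) (Fin 3) ℤ := Matrix.of fun i j => b'.repr (v' i) j
  have hP : v' = Matrix.mulVec (P.map (algebraMap ℤ (𝓞 K))) b' := by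
    funext i
    have h1 := b'.sum_repr (v' i)
    rw [← h1]
    simp only [Matrix.mulVec, dotProduct, Matrix.map_apply, P, Matrix.of_apply]
    refine Finset.sum_congr rfl fun j _ => ?_
    rw [Algebra.smul_def]
  have hdP : Algebra.discr ℤ v' = P.det ^ 2 * NumberField.discr K := by
    rw [← NumberField.discr_eq_discr K b', ← Algebra.discr_of_matrix_mulVec, ← hP]
  have hne := disc_ne K β x y hβ hq
  rw [hdP, hdv] at hdQ
  have hdet : P.det ^ 2 ≠ 0 := by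
    intro h
    rw [h, zero_mul, mul_zero] at hdQ
    apply hne
    omega
  have h1 : 1 ≤ P.det ^ 2 := by
    have := sq_nonneg P.det
    omega
  have h2 : |NumberField.discr K| * M0 ^ 2 ≤ 108 * |x ^ 3 - y ^ 2| := by
    have h4 : |108 * (x ^ 3 - y ^ 2)| = M0 ^ 2 * (P.det ^ 2 * |NumberField.discr K|) := by
      rw [hdQ, abs_mul, abs_mul, abs_of_nonneg (sq_nonneg P.det), abs_of_nonneg (sq_nonneg M0)]
    rw [abs_mul, abs_of_nonneg (by norm_num : (0 : ℤ) ≤ 108)] at h4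
    rw [h4]
    have h5 : 0 ≤ M0 ^ 2 * |NumberField.discr K| := by positivity
    nlinarith
  exact_mod_cast h2

end Pool.Helper99.BK
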