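import Pool.Agent.Helper60.BK.HALLQ

set_option autoImplicit false

namespace Pool.Helper99.BK

theorem fp_eq (x d : ℤ) : NN x d = ∏ p ∈ d.natAbs.primeFactors,
    (if (p : ℤ) ∣ x then p ^ 2 else if Odd (d.natAbs.factorization p) then p else 1) := by
  unfold NN
  apply Finset.prod_congr rfl
  intro p _
  by_cases h : (p : ℤ) ∣ x
  · rw [if_pos h, if_pos h]
  · rw [if_neg h, if_neg h]
    by_cases h2 : Odd (d.natAbs.factorization p)
    · rw [if_pos h2, Nat.odd_iff.1 h2, pow_one]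
    · rw [if_neg h2, Nat.even_iff.1 (Nat.not_odd_iff_even.1 h2), pow_zero]

/-- The bound. -/
theorem st_FINP : ∃ C : ℝ, ∀ d x y : ℤ, d ≠ 0 → y ^ 2 = x ^ 3 + d →
    Real.log |(x : ℝ)| ≤ C * Real.sqrt ((∏ p ∈ d.natAbs.primeFactors,
      (if (p : ℤ) ∣ x then p ^ 2 else if Odd (d.natAbs.factorization p) then p else 1) : ℕ) : ℝ) *
      (1 + Real.log |(d : ℝ)|) ^ 19 ∧
    (∏ p ∈ d.natAbs.primeFactors,
      (if (p : ℤ) ∣ x then p ^ 2 else if Odd (d.natAbs.factorization p) then p else 1)) ≤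
        d.natAbs := by
  obtain ⟨C, hC⟩ := st_HALLP
  refine ⟨C, ?_⟩
  intro d x y hd hxy
  rw [← fp_eq]
  exact ⟨hC d x y hd hxy, ari_le x y d hd hxy⟩

end Pool.Helper99.BK
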