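import Pool.Agent.Helper99.BK.Stmts
import Pool.Agent.Helper30.Hall.Form
import Pool.Agent.Helper60.BK.DISCP
import Pool.Agent.Helper60.BK.ARI
import Pool.Agent.Helper60.BK.CALP

set_option autoImplicit false

namespace Pool.Helper99.BK

open NumberField

/-- Vieta for the three roots -/
theorem hp_vieta (x y z0 z1 z2 : ℂ) (h0 : z0 ^ 3 - 3 * x * z0 + 2 * y = 0)
    (h1 : z1 ^ 3 - 3 * x * z1 + 2 * y = 0) (h2 : z2 ^ 3 - 3 * x * z2 + 2 * y = 0)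
    (h01 : z0 ≠ z1) (h02 : z0 ≠ z2) (h12 : z1 ≠ z2) :
    z0 + z1 + z2 = 0 ∧ z0 * z1 + z0 * z2 + z1 * z2 = -3 * x ∧ z0 * z1 * z2 = -2 * y := by
  have a1 : z0 ^ 2 + z0 * z1 + z1 ^ 2 = 3 * x := by
    have : (z0 - z1) * (z0 ^ 2 + z0 * z1 + z1 ^ 2 - 3 * x) = 0 := by linear_combination h0 - h1
    rcases mul_eq_zero.1 this with h | h
    · exact absurd (sub_eq_zero.1 h) h01
    · exact sub_eq_zero.1 h
  have a2 : z0 ^ 2 + z0 * z2 + z2 ^ 2 = 3 * x := by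
    have : (z0 - z2) * (z0 ^ 2 + z0 * z2 + z2 ^ 2 - 3 * x) = 0 := by linear_combination h0 - h2
    rcases mul_eq_zero.1 this with h | h
    · exact absurd (sub_eq_zero.1 h) h02
    · exact sub_eq_zero.1 h
  have a3 : z0 + z1 + z2 = 0 := by
    have : (z1 - z2) * (z0 + z1 + z2) = 0 := by linear_combination a1 - a2
    rcases mul_eq_zero.1 this with h | h
    · exact absurd (sub_eq_zero.1 h) h12
    · exact h
  have e2 : z2 = -z0 - z1 := by linear_combination a3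
  refine ⟨a3, ?_, ?_⟩
  · rw [e2]; linear_combination -a1
  · rw [e2]
    linear_combination h0 - z0 * a1

/-- a ring hom of a cubic field is determined by the image of `β` -/
theorem hp_det (hKER : ST_KER) (K : Type) [Field K] [NumberField K]
    (h3 : Module.finrank ℚ K = 3) (β : K) (hβ : ∀ q : ℚ, β ≠ algebraMap ℚ K q)
    (σ τ : K →+* ℂ) (h : σ β = τ β) : σ = τ := by
  by_contra hne
  obtain ⟨q, hq⟩ := (hKER K h3 σ τ hne).1 β h
  exact hβ q hq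

/-- the coefficients -/
theorem hp_form (K : Type) [Field K] (β : K) (x y A B G D a b c e : ℤ)
    (hdet : A * D - B * G = 1) (hβ : β ^ 3 - 3 * (x : K) * β + 2 * (y : K) = 0)
    (ha : a = D ^ 3 - 3 * x * D * G ^ 2 - 2 * y * G ^ 3)
    (hb : b = -3 * D ^ 2 * B + 3 * x * (2 * A * G * D + B * G ^ 2) + 6 * y * G ^ 2 * A)
    (hc : c = 3 * D * B ^ 2 - 3 * x * (D * A ^ 2 + 2 * A * B * G) - 6 * y * G * A ^ 2)
    (he : e = -B ^ 3 + 3 * x * B * A ^ 2 + 2 * y * A ^ 3)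
    (hπ : (G : K) * β + D ≠ 0) :
    (a : K) * (((A : K) * β + B) / ((G : K) * β + D)) ^ 3 +
      b * (((A : K) * β + B) / ((G : K) * β + D)) ^ 2 +
      c * (((A : K) * β + B) / ((G : K) * β + D)) + e = 0 := by
  have hdetK : (A : K) * D - B * G = 1 := by exact_mod_cast congrArg (Int.cast : ℤ → K) hdet
  have key : (a : K) * ((A : K) * β + B) ^ 3 + b * ((A : K) * β + B) ^ 2 * ((G : K) * β + D) +
      c * ((A : K) * β + B) * ((G : K) * β + D) ^ 2 + e * ((G : K) * β + D) ^ 3 = 0 := by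
    have e1 : (a : K) * ((A : K) * β + B) ^ 3 + b * ((A : K) * β + B) ^ 2 * ((G : K) * β + D) +
      c * ((A : K) * β + B) * ((G : K) * β + D) ^ 2 + e * ((G : K) * β + D) ^ 3 =
      ((A : K) * D - B * G) ^ 3 * (β ^ 3 - 3 * (x : K) * β + 2 * (y : K)) := by
      rw [ha, hb, hc, he]
      push_cast
      ring
    rw [e1, hβ, mul_zero]
  have gen : ∀ X Y : K, Y ≠ 0 → (a : K) * (X / Y) ^ 3 + b * (X / Y) ^ 2 + c * (X / Y) + e =
      (a * X ^ 3 + b * X ^ 2 * Y + c * X * Y ^ 2 + e * Y ^ 3) / Y ^ 3 := by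
    intro X Y hY
    field_simp
  rw [gen _ _ hπ, key, zero_div]

/-- bound for the discriminant -/
theorem hp_disc (K : Type) [Field K] [NumberField K] (h3 : Module.finrank ℚ K = 3) (β : K)
    (x y d : ℤ) (hd : d ≠ 0) (hxy : y ^ 2 = x ^ 3 + d)
    (hβ : β ^ 3 - 3 * (x : K) * β + 2 * (y : K) = 0) (hq : ∀ q : ℚ, β ≠ algebraMap ℚ K q) :
    |(NumberField.discr K : ℝ)| ≤ 108 * (NN x d : ℝ) := by
  obtain ⟨e, x', y', M, r, he, hM, hx, hy, h1, h2, h4⟩ := st_ARI x y d hd hxy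
  have heK : (e : K) ≠ 0 := by exact_mod_cast he
  have hβ' : (β / e) ^ 3 - 3 * (x' : K) * (β / e) + 2 * (y' : K) = 0 := by
    have e1 : (β / e) ^ 3 - 3 * (x' : K) * (β / e) + 2 * (y' : K) =
        (β ^ 3 - 3 * ((e : K) ^ 2 * x') * β + 2 * ((e : K) ^ 3 * y')) / (e : K) ^ 3 := by
      field_simp
    rw [e1]
    have e2 : (e : K) ^ 2 * x' = (x : K) := by rw [hx]; push_cast; ring
    have e3 : (e : K) ^ 3 * y' = (y : K) := by rw [hy]; push_cast; ring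
    rw [e2, e3, hβ, zero_div]
  have hq' : ∀ q : ℚ, β / e ≠ algebraMap ℚ K q := by
    intro q hh
    apply hq (q * e)
    rw [map_mul, ← hh, map_intCast]
    field_simp
  have h5 := st_DISCP K h3 (β / e) x' y' M r hβ' hq' hM h1 h2
  have hMR : (0 : ℝ) < (M : ℝ) ^ 2 := by
    have : (M : ℝ) ≠ 0 := by exact_mod_cast hM
    positivity
  have h6 : |((x' ^ 3 - y' ^ 2 : ℤ) : ℝ)| ≤ NN x d * (M : ℝ) ^ 2 := by
    have h7 : ((|x' ^ 3 - y' ^ 2| : ℤ) : ℝ) ≤ ((NN x d * M ^ 2 : ℤ) : ℝ) := by exact_mod_cast h4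
    rw [Int.cast_abs] at h7
    push_cast at h7 ⊢
    exact h7
  have h8 : |(NumberField.discr K : ℝ)| * (M : ℝ) ^ 2 ≤ (108 * (NN x d : ℝ)) * (M : ℝ) ^ 2 := by
    calc _ ≤ 108 * |((x' ^ 3 - y' ^ 2 : ℤ) : ℝ)| := h5
      _ ≤ 108 * (NN x d * (M : ℝ) ^ 2) := by gcongr
      _ = _ := by ring
  exact le_of_mul_le_mul_right h8 hMR

/-- `1 + log T ≤ 8 T ^ (1/8)` -/
theorem hp_log (T : ℝ) (hT : 1 ≤ T) : (1 + Real.log T) ^ 8 ≤ 8 ^ 8 * T := by
  have h0 : 0 ≤ Real.log T := Real.log_nonneg hT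
  have h1 : 1 + Real.log T ≤ 8 * Real.exp (Real.log T / 8) := by
    have := Real.add_one_le_exp (Real.log T / 8)
    linarith
  calc (1 + Real.log T) ^ 8 ≤ (8 * Real.exp (Real.log T / 8)) ^ 8 :=
        pow_le_pow_left₀ (by linarith) h1 8
    _ = 8 ^ 8 * Real.exp (Real.log T / 8) ^ 8 := by rw [mul_pow]
    _ = 8 ^ 8 * T := by
        rw [← Real.exp_nat_mul]
        have : ((8 : ℕ) : ℝ) * (Real.log T / 8) = Real.log T := by push_cast; ring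
        rw [this, Real.exp_log (by linarith)]

theorem hp_abs_log (u v w W : ℝ) (hu : 0 ≤ u) (_hv : 0 ≤ v) (hw : 0 ≤ w) (hW : 1 ≤ W)
    (h1 : u ≤ W) (h2 : v ≤ W) (h3 : w ≤ W) (h : 1 ≤ u * v * w) : |Real.log u| ≤ 2 * Real.log W := by
  have hlW : 0 ≤ Real.log W := Real.log_nonneg hW
  have hu0 : 0 < u := by
    rcases hu.lt_or_eq with h4 | h4
    · exact h4
    · rw [← h4] at h; norm_num at h
  have h5 : 1 ≤ u * W ^ 2 := by
    calc 1 ≤ u * v * w := h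
      _ ≤ u * W * W := by gcongr
      _ = u * W ^ 2 := by ring
  have h6 : 0 ≤ Real.log u + 2 * Real.log W := by
    have h7 := Real.log_nonneg h5
    rw [Real.log_mul hu0.ne' (by positivity), Real.log_pow] at h7
    exact_mod_cast h7
  have h8 : Real.log u ≤ Real.log W := Real.log_le_log hu0 h1
  rw [abs_le]
  constructor <;> linarith

theorem hp_frac (p q n0 n1 n2 : ℂ) (hq : q ≠ 0) (h0 : n0 ≠ 0) (h1 : n1 ≠ 0) (h2 : n2 ≠ 0) :
    p / q = p / (n0 * n1) / (q / (n0 * n2)) * (n1 / n2) := by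
  field_simp

/-- the application of the linear form bound -/
theorem hp_one (hFLD : ST_FLD) (hKER : ST_KER) (hEMB : ST_EMB3) (hIDC : ST_IDC)
    (C1 C2 C3 : ℝ) (hC1 : 1 ≤ C1) (hC2 : 1 ≤ C2)
    (hRT : ∀ x y d : ℤ, y ^ 2 = x ^ 3 + d → d ≠ 0 → 0 < y →
      C1 * |(d : ℝ)| ≤ x → ∃ z : Fin 3 → ℂ, Function.Injective z ∧
        (∀ i, z i ^ 3 - 3 * (x : ℂ) * z i + 2 * (y : ℂ) = 0) ∧ (∀ i, ‖z i‖ ≤ C1 * x) ∧
        Real.sqrt x ≤ ‖z 0 - z 1‖ ∧ Real.sqrt x ≤ ‖z 0 - z 2‖ ∧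
        (x : ℝ) * ‖z 1 - z 2‖ ≤ C1 * Real.sqrt |(d : ℝ)| ∧
        ((∀ i, (z i).im = 0) ∨ (z 2 = (starRingEnd ℂ) (z 1) ∧ (z 0).im = 0)))
    (hRED : ∀ x y d : ℤ, y ^ 2 = x ^ 3 + d → d ≠ 0 → 0 < y →
      C2 * |(d : ℝ)| ≤ x → (∀ n : ℤ, n ^ 3 - 3 * x * n + 2 * y ≠ 0) →
      ∃ α β γ δ a b c e : ℤ, α * δ - β * γ = 1 ∧
        a = δ ^ 3 - 3 * x * δ * γ ^ 2 - 2 * y * γ ^ 3 ∧
        b = -3 * δ ^ 2 * β + 3 * x * (2 * α * γ * δ + β * γ ^ 2) + 6 * y * γ ^ 2 * α ∧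
        c = 3 * δ * β ^ 2 - 3 * x * (δ * α ^ 2 + 2 * α * β * γ) - 6 * y * γ * α ^ 2 ∧
        e = -β ^ 3 + 3 * x * β * α ^ 2 + 2 * y * α ^ 3 ∧ a ≠ 0 ∧
        |(a : ℝ)| ≤ C2 * |(d : ℝ)| ∧ |(b : ℝ)| ≤ C2 * |(d : ℝ)| ∧ |(c : ℝ)| ≤ C2 * |(d : ℝ)| ∧
        |(e : ℝ)| ≤ C2 * |(d : ℝ)| ∧ |(γ : ℝ)| ≤ C2 * x ∧ |(δ : ℝ)| ≤ C2 * x)
    (hNT : ∀ (K : Type) [Field K] [NumberField K],
      Module.finrank ℚ K = 3 → ∀ σ : Fin 3 → (K →+* ℂ), Function.Injective σ →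
        ∀ (α : K) (a b c e : ℤ), a ≠ 0 → (∀ i j, i ≠ j → σ i α ≠ σ j α) →
        (a : K) * α ^ 3 + b * α ^ 2 + c * α + e = 0 → dsc a b c e ≠ 0 →
        ∀ (π : 𝓞 K), π ≠ 0 → ∀ (H S ν : ℝ), 3 ≤ H → |(a : ℝ)| ≤ H → |(b : ℝ)| ≤ H →
        |(c : ℝ)| ≤ H → |(e : ℝ)| ≤ H → |(Algebra.norm ℤ π : ℝ)| ≤ H →
        |(NumberField.discr K : ℝ)| ≤ H → 3 ≤ S → (∀ i, |Real.log ‖σ i (π : K)‖| ≤ S) → 1 ≤ ν →
        ν ≤ H ^ 4 → ((ID K (2 * Real.sqrt |(NumberField.discr K : ℝ)|)).ncard : ℝ) ≤ ν →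
        ((∀ i x, (σ i x).im = 0) ∨
          ((∀ x, σ 2 x = (starRingEnd ℂ) (σ 1 x)) ∧ (∀ x, (σ 0 x).im = 0))) →
        ∀ G : ℂ, G = (σ 0 α - σ 1 α) / (σ 0 α - σ 2 α) * (σ 1 (π : K) / σ 2 (π : K)) → G ≠ 1 →
        ‖G - 1‖ ≤ 1 / 2 ^ 30 →
        -Real.log ‖G - 1‖ ≤ C3 * ν * (Real.log H + Real.log S) ^ 11)
    (x y d : ℤ) (hd : d ≠ 0) (hxy : y ^ 2 = x ^ 3 + d) (hy : 0 < y)
    (hx : (C1 ^ 2 * 2 ^ 60 + C2) * |(d : ℝ)| ≤ x)
    (hn : ∀ n : ℤ, n ^ 3 - 3 * x * n + 2 * y ≠ 0) :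
    Real.log x - Real.log C1 ≤ C3 * ((21 * Real.sqrt (NN x d)) *
      (1 + Real.log (21 * Real.sqrt (NN x d))) ^ 8) *
      (Real.log ((C2 + 1000) * |(d : ℝ)|) +
        Real.log (2 * Real.log (2 * C1 * C2 * (x : ℝ) ^ 2) + 3)) ^ 11 := by
  have hD1 : (1 : ℝ) ≤ |(d : ℝ)| := by
    have : (1 : ℤ) ≤ |d| := Int.one_le_abs hd
    exact_mod_cast this
  set D : ℝ := |(d : ℝ)| with hD
  have hC1sq : C1 ≤ C1 ^ 2 := by nlinarith
  have hC1' : C1 ≤ C1 ^ 2 * 2 ^ 60 := by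
    calc C1 ≤ C1 ^ 2 := hC1sq
      _ = C1 ^ 2 * 1 := (mul_one _).symm
      _ ≤ C1 ^ 2 * 2 ^ 60 := by gcongr; norm_num
  have h1 : C1 * D ≤ x := by
    calc C1 * D ≤ (C1 ^ 2 * 2 ^ 60 + C2) * D := by gcongr; linarith
      _ ≤ x := hx
  have h2 : C2 * D ≤ x := by
    calc C2 * D ≤ (C1 ^ 2 * 2 ^ 60 + C2) * D := by
          gcongr
          have : 0 ≤ C1 ^ 2 * 2 ^ 60 := by positivity
          linarith
      _ ≤ x := hx
  have h0 : C1 ^ 2 * 2 ^ 60 * D ≤ (x : ℝ) := by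
    have e1 : (C1 ^ 2 * 2 ^ 60 + C2) * D = C1 ^ 2 * 2 ^ 60 * D + C2 * D := by ring
    have e2 : 0 ≤ C2 * D := by positivity
    linarith
  have hDx : D ≤ x := by nlinarith
  have hx1 : (1 : ℝ) ≤ x := by linarith
  have hx0 : (0 : ℝ) < x := by linarith
  obtain ⟨z, hzinj, hzroot, hzb, hz01, hz02, hz12, hzreal⟩ := hRT x y d hxy hd hy h1
  obtain ⟨A, B, G, E, a, b, c, e, hdet, ha, hb, hc, he, ha0, ba, bb, bc, be, bG, bE⟩ :=
    hRED x y d hxy hd hy h2 hn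
  obtain ⟨K, iF, iN, β, h3, hβ, hβq, hex⟩ := hFLD x y hn
  choose σ hσ using fun i => hex (z i) (hzroot i)
  have hσinj : Function.Injective σ := fun i j hij => hzinj (by rw [← hσ i, ← hσ j, hij])
  have hint : IsIntegral ℤ β := by
    refine ⟨Polynomial.X ^ 3 - Polynomial.C (3 * x) * Polynomial.X + Polynomial.C (2 * y), ?_, ?_⟩
    · monicity!
    · simp only [Polynomial.eval₂_add, Polynomial.eval₂_sub, Polynomial.eval₂_mul,
        Polynomial.eval₂_pow, Polynomial.eval₂_X, Polynomial.eval₂_C]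
      rw [eq_intCast, eq_intCast]
      push_cast
      exact hβ
  let b0 : 𝓞 K := ⟨β, hint⟩
  let π : 𝓞 K := (G : 𝓞 K) * b0 + (E : 𝓞 K)
  have hπK : algebraMap (𝓞 K) K π = (G : K) * β + E := by
    simp only [π, map_add, map_mul, map_intCast]
    rfl
  have hπσ : ∀ i, σ i (algebraMap (𝓞 K) K π) = (G : ℂ) * z i + E := by
    intro i
    rw [hπK, map_add, map_mul, map_intCast, map_intCast, hσ]
  have z01 : z 0 ≠ z 1 := fun h => absurd (hzinj h) (by decide)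
  have z02 : z 0 ≠ z 2 := fun h => absurd (hzinj h) (by decide)
  have z12 : z 1 ≠ z 2 := fun h => absurd (hzinj h) (by decide)
  obtain ⟨v1, v2, v3⟩ := hp_vieta x y (z 0) (z 1) (z 2) (hzroot 0) (hzroot 1) (hzroot 2) z01 z02 z12
  have hprod : ((G : ℂ) * z 0 + E) * ((G : ℂ) * z 1 + E) * ((G : ℂ) * z 2 + E) = (a : ℂ) := by
    have ha' : (a : ℂ) = (E : ℂ) ^ 3 - 3 * x * E * G ^ 2 - 2 * y * G ^ 3 := by
      rw [ha]; push_cast; ring
    rw [ha']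
    linear_combination (G : ℂ) * E ^ 2 * v1 + (G : ℂ) ^ 2 * E * v2 + (G : ℂ) ^ 3 * v3
  have haC : (a : ℂ) ≠ 0 := by exact_mod_cast ha0
  have hne : ∀ i, (G : ℂ) * z i + E ≠ 0 := by
    rw [← hprod] at haC
    intro i
    fin_cases i
    · exact left_ne_zero_of_mul (left_ne_zero_of_mul haC)
    · exact right_ne_zero_of_mul (left_ne_zero_of_mul haC)
    · exact right_ne_zero_of_mul haC
  have hπne : π ≠ 0 := by
    intro h
    apply hne 0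
    rw [← hπσ 0, h, map_zero, map_zero]
  have hπKne : (G : K) * β + E ≠ 0 := by
    intro h
    apply hne 0
    rw [← hπσ 0, hπK, h, map_zero]
  obtain ⟨-, hEn, -, -⟩ := hEMB K h3 σ hσinj
  have hnormprod : ‖(G : ℂ) * z 0 + E‖ * ‖(G : ℂ) * z 1 + E‖ * ‖(G : ℂ) * z 2 + E‖ = |(a : ℝ)| := by
    rw [← norm_mul, ← norm_mul, hprod, Complex.norm_intCast]
  have hNorm : |(Algebra.norm ℤ π : ℝ)| = |(a : ℝ)| := by
    rw [← hEn π, ← hnormprod, Fin.prod_univ_three]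
    simp only [hπσ]
  have ha1 : (1 : ℝ) ≤ |(a : ℝ)| := by
    have : (1 : ℤ) ≤ |a| := Int.one_le_abs ha0
    exact_mod_cast this
  set α : K := ((A : K) * β + B) / ((G : K) * β + E) with hα
  have hασ : ∀ i, σ i α = ((A : ℂ) * z i + B) / ((G : ℂ) * z i + E) := by
    intro i
    rw [hα, map_div₀, map_add, map_add, map_mul, map_mul, map_intCast, map_intCast, map_intCast,
      map_intCast, hσ]
  have hdetC : (A : ℂ) * E - B * G = 1 := by exact_mod_cast congrArg (Int.cast : ℤ → ℂ) hdet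
  have hdiff : ∀ i j, σ i α - σ j α = (z i - z j) / (((G : ℂ) * z i + E) * ((G : ℂ) * z j + E)) := by
    intro i j
    rw [hασ, hασ, div_sub_div _ _ (hne i) (hne j)]
    congr 1
    linear_combination (z i - z j) * hdetC
  have hdsc : dsc a b c e ≠ 0 := by
    have h4 := Pool.Helper30.Hall.form_disc x y A B G E hdet
    have h5 : dsc a b c e = 108 * (x ^ 3 - y ^ 2) := by
      rw [← h4, ha, hb, hc, he]
      rfl
    rw [h5]
    have : x ^ 3 - y ^ 2 = -d := by linarith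
    rw [this]
    simp [hd]
  -- the complex conjugation
  have hreal : ∀ i, (z i).im = 0 → ∀ u, (σ i u).im = 0 := by
    intro i hi u
    have h4 : (starRingEnd ℂ).comp (σ i) = σ i := by
      apply hp_det hKER K h3 β hβq
      rw [RingHom.comp_apply, hσ]
      exact Complex.conj_eq_iff_im.2 hi
    have h5 := RingHom.congr_fun h4 u
    rw [RingHom.comp_apply] at h5
    exact Complex.conj_eq_iff_im.1 h5
  have hcase : (∀ i u, (σ i u).im = 0) ∨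
      ((∀ u, σ 2 u = (starRingEnd ℂ) (σ 1 u)) ∧ (∀ u, (σ 0 u).im = 0)) := by
    rcases hzreal with h4 | ⟨h4, h5⟩
    · exact Or.inl (fun i => hreal i (h4 i))
    · refine Or.inr ⟨?_, hreal 0 h5⟩
      intro u
      have h6 : σ 2 = (starRingEnd ℂ).comp (σ 1) := by
        apply hp_det hKER K h3 β hβq
        rw [RingHom.comp_apply, hσ, hσ]
        exact h4
      exact RingHom.congr_fun h6 u
  -- sizes
  set W : ℝ := 2 * C1 * C2 * (x : ℝ) ^ 2 with hW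
  have hx2 : (1 : ℝ) ≤ (x : ℝ) ^ 2 := one_le_pow₀ hx1
  have hCC : 1 ≤ C1 * C2 := one_le_mul_of_one_le_of_one_le hC1 hC2
  have hW1 : 1 ≤ W := by
    rw [hW]
    nlinarith
  have hWb : ∀ i, ‖(G : ℂ) * z i + E‖ ≤ W := by
    intro i
    calc ‖(G : ℂ) * z i + E‖ ≤ ‖(G : ℂ) * z i‖ + ‖(E : ℂ)‖ := norm_add_le _ _
      _ = |(G : ℝ)| * ‖z i‖ + |(E : ℝ)| := by
          rw [norm_mul, Complex.norm_intCast, Complex.norm_intCast]
      _ ≤ (C2 * x) * (C1 * x) + C2 * x := by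
          gcongr
          exact hzb i
      _ ≤ (C2 * x) * (C1 * x) + (C2 * x) * (C1 * x) := by
          have h4 : 1 ≤ C1 * x := one_le_mul_of_one_le_of_one_le hC1 hx1
          have h5 : 0 ≤ C2 * x := by positivity
          nlinarith
      _ = W := by rw [hW]; ring
  have hSb : ∀ i, |Real.log ‖σ i (algebraMap (𝓞 K) K π)‖| ≤ 2 * Real.log W + 3 := by
    intro i
    rw [hπσ]
    have hp1 : 1 ≤ ‖(G : ℂ) * z 0 + E‖ * ‖(G : ℂ) * z 1 + E‖ * ‖(G : ℂ) * z 2 + E‖ := by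
      rw [hnormprod]; exact ha1
    have h4 : |Real.log ‖(G : ℂ) * z i + E‖| ≤ 2 * Real.log W := by
      fin_cases i
      · exact hp_abs_log _ _ _ W (norm_nonneg _) (norm_nonneg _) (norm_nonneg _) hW1 (hWb 0)
          (hWb 1) (hWb 2) hp1
      · exact hp_abs_log _ _ _ W (norm_nonneg _) (norm_nonneg _) (norm_nonneg _) hW1 (hWb 1)
          (hWb 0) (hWb 2) (by
            calc 1 ≤ ‖(G : ℂ) * z 0 + E‖ * ‖(G : ℂ) * z 1 + E‖ * ‖(G : ℂ) * z 2 + E‖ := hp1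
              _ = ‖(G : ℂ) * z 1 + E‖ * ‖(G : ℂ) * z 0 + E‖ * ‖(G : ℂ) * z 2 + E‖ := by ring)
      · exact hp_abs_log _ _ _ W (norm_nonneg _) (norm_nonneg _) (norm_nonneg _) hW1 (hWb 2)
          (hWb 0) (hWb 1) (by
            calc 1 ≤ ‖(G : ℂ) * z 0 + E‖ * ‖(G : ℂ) * z 1 + E‖ * ‖(G : ℂ) * z 2 + E‖ := hp1
              _ = ‖(G : ℂ) * z 2 + E‖ * ‖(G : ℂ) * z 0 + E‖ * ‖(G : ℂ) * z 1 + E‖ := by ring)
    linarith
  -- the discriminant
  have hdisc := hp_disc K h3 β x y d hd hxy hβ hβq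
  have hN1 : (1 : ℝ) ≤ NN x d := by exact_mod_cast ari_pos x d
  have hND : (NN x d : ℝ) ≤ D := by
    have h4 := ari_le x y d hd hxy
    have h5 : (NN x d : ℝ) ≤ (d.natAbs : ℝ) := by exact_mod_cast h4
    rw [Nat.cast_natAbs] at h5
    rw [hD]
    push_cast at h5
    exact h5
  have hdisc1 : (1 : ℝ) ≤ |(NumberField.discr K : ℝ)| := by
    have : (1 : ℤ) ≤ |NumberField.discr K| := Int.one_le_abs (NumberField.discr_ne_zero K)
    exact_mod_cast this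
  set t : ℝ := 2 * Real.sqrt |(NumberField.discr K : ℝ)| with ht
  have ht1 : 1 ≤ t := by
    have : 1 ≤ Real.sqrt |(NumberField.discr K : ℝ)| := Real.one_le_sqrt.2 hdisc1
    rw [ht]; linarith
  set T : ℝ := 21 * Real.sqrt (NN x d) with hT
  have hsN : 1 ≤ Real.sqrt (NN x d) := Real.one_le_sqrt.2 hN1
  have hT1 : 1 ≤ T := by rw [hT]; linarith
  have htT : t ≤ T := by
    have h4 : Real.sqrt |(NumberField.discr K : ℝ)| ≤ 10.5 * Real.sqrt (NN x d) := by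
      rw [Real.sqrt_le_left (by positivity)]
      rw [mul_pow, Real.sq_sqrt (by positivity)]
      calc _ ≤ 108 * (NN x d : ℝ) := hdisc
        _ ≤ _ := by
          apply mul_le_mul_of_nonneg_right _ (by positivity)
          norm_num
    rw [ht, hT]
    linarith
  have hIDb : ((ID K t).ncard : ℝ) ≤ T * (1 + Real.log T) ^ 8 := by
    calc _ ≤ t * (1 + Real.log t) ^ 8 := hIDC K h3 t ht1
      _ ≤ T * (1 + Real.log T) ^ 8 := by
        have h4 : Real.log t ≤ Real.log T := Real.log_le_log (by linarith) htT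
        have h5 : 0 ≤ Real.log t := Real.log_nonneg ht1
        gcongr
  have hlT : 0 ≤ Real.log T := Real.log_nonneg hT1
  have hν1 : 1 ≤ T * (1 + Real.log T) ^ 8 :=
    one_le_mul_of_one_le_of_one_le hT1 (one_le_pow₀ (by linarith))
  set H : ℝ := (C2 + 1000) * D with hH
  have hH3 : 1000 * D ≤ H := by
    rw [hH]; nlinarith
  have hH1000 : 1000 ≤ H := by linarith
  have hνH : T * (1 + Real.log T) ^ 8 ≤ H ^ 4 := by
    have h4 := hp_log T hT1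
    have h5 : T ^ 2 ≤ 441 * D := by
      rw [hT, mul_pow, Real.sq_sqrt (by positivity)]
      nlinarith
    calc T * (1 + Real.log T) ^ 8 ≤ T * (8 ^ 8 * T) := by gcongr
      _ = 8 ^ 8 * T ^ 2 := by ring
      _ ≤ 8 ^ 8 * (441 * D) := by gcongr
      _ ≤ 1000 ^ 3 * (1000 * D) := by nlinarith
      _ ≤ H ^ 3 * H := by gcongr
      _ = H ^ 4 := by ring
  have hCDH : C2 * D ≤ H := by rw [hH]; nlinarith
  have hdiscH : |(NumberField.discr K : ℝ)| ≤ H := by linarith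
  -- the number Γ
  set Γ : ℂ := (z 0 - z 1) / (z 0 - z 2) with hΓ
  have s02 : z 0 - z 2 ≠ 0 := sub_ne_zero.2 z02
  have s12 : z 1 - z 2 ≠ 0 := sub_ne_zero.2 z12
  have hΓeq : Γ = (σ 0 α - σ 1 α) / (σ 0 α - σ 2 α) *
      (σ 1 (algebraMap (𝓞 K) K π) / σ 2 (algebraMap (𝓞 K) K π)) := by
    rw [hdiff, hdiff, hπσ, hπσ, hΓ]
    exact hp_frac _ _ _ _ _ s02 (hne 0) (hne 1) (hne 2)
  have hΓ1 : Γ - 1 = -((z 1 - z 2) / (z 0 - z 2)) := by
    rw [hΓ, div_sub_one s02, ← neg_div]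
    congr 1
    ring
  have hΓne : Γ ≠ 1 := by
    intro h
    rw [h, sub_self] at hΓ1
    have := div_ne_zero s12 s02
    exact this (neg_eq_zero.1 hΓ1.symm)
  have hΓn : ‖Γ - 1‖ = ‖z 1 - z 2‖ / ‖z 0 - z 2‖ := by
    rw [hΓ1, norm_neg, norm_div]
  set sx : ℝ := Real.sqrt x with hsx
  have hsx0 : 0 < sx := Real.sqrt_pos.2 hx0
  have hsxsq : sx ^ 2 = x := Real.sq_sqrt hx0.le
  have hsD : Real.sqrt D ≤ sx := Real.sqrt_le_sqrt hDx
  have hn02 : 0 < ‖z 0 - z 2‖ := lt_of_lt_of_le hsx0 hz02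
  have hxΓ : (x : ℝ) * ‖Γ - 1‖ ≤ C1 := by
    rw [hΓn, ← mul_div_assoc, div_le_iff₀ hn02]
    calc (x : ℝ) * ‖z 1 - z 2‖ ≤ C1 * Real.sqrt D := hz12
      _ ≤ C1 * sx := by gcongr
      _ ≤ C1 * ‖z 0 - z 2‖ := by gcongr
  have hΓpos : 0 < ‖Γ - 1‖ := norm_pos_iff.2 (sub_ne_zero.2 hΓne)
  have hΓsmall : ‖Γ - 1‖ ≤ 1 / 2 ^ 30 := by
    have h4 : C1 * 2 ^ 30 ≤ x := by
      calc C1 * 2 ^ 30 ≤ C1 ^ 2 * 2 ^ 60 * 1 := by nlinarith
        _ ≤ C1 ^ 2 * 2 ^ 60 * D := by gcongr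
        _ ≤ x := h0
    have h5 : ‖Γ - 1‖ ≤ C1 / x := by
      rw [le_div_iff₀ hx0]; linarith
    calc ‖Γ - 1‖ ≤ C1 / x := h5
      _ ≤ 1 / 2 ^ 30 := by
        rw [div_le_div_iff₀ hx0 (by norm_num)]
        linarith
  have hmain := hNT K h3 σ hσinj α a b c e ha0 (by
      intro i j hij
      rw [← sub_ne_zero, hdiff]
      exact div_ne_zero (sub_ne_zero.2 (fun h => hij (hzinj h))) (mul_ne_zero (hne i) (hne j)))
    (hp_form K β x y A B G E a b c e hdet hβ ha hb hc he hπKne) hdsc π hπne H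
    (2 * Real.log W + 3) (T * (1 + Real.log T) ^ 8) (by linarith) (ba.trans hCDH) (bb.trans hCDH)
    (bc.trans hCDH) (be.trans hCDH) (by rw [hNorm]; exact ba.trans hCDH) hdiscH (by
      have := Real.log_nonneg hW1
      linarith) hSb hν1 hνH hIDb hcase Γ hΓeq hΓne hΓsmall
  refine le_trans ?_ hmain
  have h4 : Real.log ((x : ℝ) * ‖Γ - 1‖) ≤ Real.log C1 := Real.log_le_log (by positivity) hxΓ
  rw [Real.log_mul hx0.ne' hΓpos.ne'] at h4
  linarith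

end Pool.Helper99.BK
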