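import Pool.Agent.Helper99.BK.All
import Pool.Agent.Helper60.BK.HALLP

set_option autoImplicit false

namespace Pool.Helper99.BK

open NumberField

theorem hq_calc (C1 C2 C3 : ℝ) (hC1 : 1 ≤ C1) (hC2 : 1 ≤ C2) (hC3 : 1 ≤ C3) :
    ∃ C : ℝ, 1 ≤ C ∧ ∀ N D x : ℝ, 1 ≤ N → N ≤ D → Real.exp 1 ≤ x →
    Real.log x - Real.log C1 ≤ C3 * ((21 * Real.sqrt N) *
      (1 + Real.log (21 * Real.sqrt N)) ^ 8) *
      (Real.log ((C2 + 1000) * D) + Real.log (2 * Real.log (2 * C1 * C2 * x ^ 2) + 3)) ^ 11 →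
    Real.log x ≤ C * Real.sqrt N * (Real.log D + Real.log (Real.log x) + C) ^ 19 := by
  have hCC : 1 ≤ C1 * C2 := one_le_mul_of_one_le_of_one_le hC1 hC2
  obtain ⟨c1, hc1⟩ : ∃ c1, c1 = Real.log (2 * C1 * C2) := ⟨_, rfl⟩
  have hc10 : 0 ≤ c1 := by
    rw [hc1]; apply Real.log_nonneg; nlinarith
  obtain ⟨K1, hK1⟩ : ∃ K1, K1 = Real.log (C2 + 1000) + Real.log (2 * c1 + 7) := ⟨_, rfl⟩
  have hl1 : 0 ≤ Real.log (C2 + 1000) := Real.log_nonneg (by linarith)
  have hl2 : 0 ≤ Real.log (2 * c1 + 7) := Real.log_nonneg (by linarith)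
  have hl3 : 0 ≤ Real.log C1 := Real.log_nonneg hC1
  have hl21 : 0 ≤ Real.log 21 := Real.log_nonneg (by norm_num)
  obtain ⟨C, hC⟩ : ∃ C, C = K1 + (1 + Real.log 21) + Real.log C1 + 21 * C3 := ⟨_, rfl⟩
  have hK10 : 0 ≤ K1 := by rw [hK1]; linarith
  refine ⟨C, by rw [hC]; linarith, ?_⟩
  intro N D x hN hND hx h
  have hD1 : 1 ≤ D := by linarith
  have hx0 : 0 < x := lt_of_lt_of_le (Real.exp_pos 1) hx
  have hX1 : 1 ≤ Real.log x := by
    rw [Real.le_log_iff_exp_le hx0]; exact hx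
  obtain ⟨X, hX⟩ : ∃ X, X = Real.log x := ⟨_, rfl⟩
  rw [← hX] at h hX1 ⊢
  have hlX : 0 ≤ Real.log X := Real.log_nonneg hX1
  have hlD : 0 ≤ Real.log D := Real.log_nonneg hD1
  have hsN : 1 ≤ Real.sqrt N := Real.one_le_sqrt.2 hN
  have e1 : Real.log (2 * C1 * C2 * x ^ 2) = c1 + 2 * X := by
    rw [Real.log_mul (by positivity) (by positivity), Real.log_pow, hc1, hX]
    push_cast
    ring
  have e2 : Real.log ((C2 + 1000) * D) = Real.log (C2 + 1000) + Real.log D :=
    Real.log_mul (by linarith) (by linarith)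
  have e3 : Real.log (2 * Real.log (2 * C1 * C2 * x ^ 2) + 3) ≤
      Real.log (2 * c1 + 7) + Real.log X := by
    rw [e1, ← Real.log_mul (by linarith) (by linarith)]
    apply Real.log_le_log (by linarith)
    nlinarith
  have e3' : 0 ≤ Real.log (2 * Real.log (2 * C1 * C2 * x ^ 2) + 3) := by
    rw [e1]; apply Real.log_nonneg; linarith
  have e4 : Real.log (21 * Real.sqrt N) ≤ Real.log 21 + Real.log D := by
    rw [Real.log_mul (by norm_num) (by positivity), Real.log_sqrt (by linarith)]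
    have h5 : Real.log N ≤ Real.log D := Real.log_le_log (by linarith) hND
    have h6 : 0 ≤ Real.log N := Real.log_nonneg hN
    linarith
  have e4' : 0 ≤ Real.log (21 * Real.sqrt N) := Real.log_nonneg (by linarith)
  obtain ⟨Y, hY⟩ : ∃ Y, Y = Real.log D + Real.log X + C := ⟨_, rfl⟩
  rw [← hY]
  have hY1 : 1 ≤ Y := by rw [hY, hC]; linarith
  have f1 : 1 + Real.log (21 * Real.sqrt N) ≤ Y := by rw [hY, hC]; linarith
  have f2 : Real.log ((C2 + 1000) * D) + Real.log (2 * Real.log (2 * C1 * C2 * x ^ 2) + 3) ≤ Y := by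
    rw [e2, hY, hC, hK1]; linarith
  have f3 : C3 * ((21 * Real.sqrt N) * (1 + Real.log (21 * Real.sqrt N)) ^ 8) *
      (Real.log ((C2 + 1000) * D) + Real.log (2 * Real.log (2 * C1 * C2 * x ^ 2) + 3)) ^ 11 ≤
      C3 * ((21 * Real.sqrt N) * Y ^ 8) * Y ^ 11 := by
    have g1 : (1 + Real.log (21 * Real.sqrt N)) ^ 8 ≤ Y ^ 8 :=
      pow_le_pow_left₀ (by linarith) f1 8
    have g2 : (Real.log ((C2 + 1000) * D) +
        Real.log (2 * Real.log (2 * C1 * C2 * x ^ 2) + 3)) ^ 11 ≤ Y ^ 11 :=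
      pow_le_pow_left₀ (by rw [e2]; linarith) f2 11
    have g3 : 0 ≤ Real.log ((C2 + 1000) * D) +
        Real.log (2 * Real.log (2 * C1 * C2 * x ^ 2) + 3) := by rw [e2]; linarith
    gcongr
  have hY19 : 1 ≤ Y ^ 19 := one_le_pow₀ hY1
  have f4 : C3 * ((21 * Real.sqrt N) * Y ^ 8) * Y ^ 11 = 21 * C3 * Real.sqrt N * Y ^ 19 := by ring
  have f5 : Real.log C1 ≤ Real.log C1 * Real.sqrt N * Y ^ 19 := by
    calc Real.log C1 = Real.log C1 * 1 * 1 := by ring
      _ ≤ Real.log C1 * Real.sqrt N * Y ^ 19 := by gcongr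
  calc X ≤ Real.log C1 + C3 * ((21 * Real.sqrt N) * (1 + Real.log (21 * Real.sqrt N)) ^ 8) *
      (Real.log ((C2 + 1000) * D) + Real.log (2 * Real.log (2 * C1 * C2 * x ^ 2) + 3)) ^ 11 := by
        linarith
    _ ≤ Real.log C1 * Real.sqrt N * Y ^ 19 + 21 * C3 * Real.sqrt N * Y ^ 19 := by
        rw [← f4]
        exact add_le_add f5 f3
    _ = (Real.log C1 + 21 * C3) * Real.sqrt N * Y ^ 19 := by ring
    _ ≤ C * Real.sqrt N * Y ^ 19 := by
        have : Real.log C1 + 21 * C3 ≤ C := by rw [hC]; linarith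
        gcongr

/-- The height bound for Mordell curves. -/
theorem st_HALLP : ∃ C : ℝ, ∀ d x y : ℤ, d ≠ 0 → y ^ 2 = x ^ 3 + d →
    Real.log |(x : ℝ)| ≤ C * Real.sqrt (NN x d) * (1 + Real.log |(d : ℝ)|) ^ 19 := by
  obtain ⟨C1, hC1, hRT⟩ := bk_RT
  obtain ⟨C2, hC2, hRED⟩ := bk_RED
  obtain ⟨C3, hC3, hNT⟩ := bk_NT
  obtain ⟨C4, hC4, hcalc⟩ := hq_calc C1 C2 C3 hC1 hC2 hC3
  obtain ⟨C5, hC5, hcal⟩ := st_CALP C4 hC4
  obtain ⟨Cth, hCth⟩ : ∃ c : ℝ, c = C1 ^ 2 * 2 ^ 60 + C2 := ⟨_, rfl⟩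
  have hCth1 : 1 ≤ Cth := by
    have : 0 ≤ C1 ^ 2 * 2 ^ 60 := by positivity
    rw [hCth]; linarith
  have hlth : 0 ≤ Real.log Cth := Real.log_nonneg hCth1
  have hl100 : 0 ≤ Real.log 100 := Real.log_nonneg (by norm_num)
  refine ⟨C5 + (1 + Real.log Cth) + (1 + Real.log 100), ?_⟩
  obtain ⟨Cf, hCf⟩ : ∃ c : ℝ, c = C5 + (1 + Real.log Cth) + (1 + Real.log 100) := ⟨_, rfl⟩
  rw [← hCf]
  intro d x y hd hxy
  have hD1 : (1 : ℝ) ≤ |(d : ℝ)| := by
    have : (1 : ℤ) ≤ |d| := Int.one_le_abs hd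
    exact_mod_cast this
  obtain ⟨D, hD⟩ : ∃ D : ℝ, D = |(d : ℝ)| := ⟨_, rfl⟩
  rw [← hD] at hD1 ⊢
  have hlD : 0 ≤ Real.log D := Real.log_nonneg hD1
  have hN1 : (1 : ℝ) ≤ NN x d := by exact_mod_cast ari_pos x d
  have hND : (NN x d : ℝ) ≤ D := by
    have h4 := ari_le x y d hd hxy
    have h5 : (NN x d : ℝ) ≤ (d.natAbs : ℝ) := by exact_mod_cast h4
    rw [Nat.cast_natAbs] at h5
    rw [hD]
    push_cast at h5
    exact h5
  have hsN : 1 ≤ Real.sqrt (NN x d) := Real.one_le_sqrt.2 hN1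
  have hL : 1 + Real.log D ≤ (1 + Real.log D) ^ 19 := le_self_pow₀ (by linarith) (by norm_num)
  have hL0 : 0 ≤ (1 + Real.log D) ^ 19 := by positivity
  have hCf0 : 0 ≤ Cf := by rw [hCf]; linarith
  -- the trivial bound
  have triv : ∀ K : ℝ, 0 ≤ K → K ≤ Cf → Real.log |(x : ℝ)| ≤ K * (1 + Real.log D) →
      Real.log |(x : ℝ)| ≤ Cf * Real.sqrt (NN x d) * (1 + Real.log D) ^ 19 := by
    intro K hK hKC h
    calc Real.log |(x : ℝ)| ≤ K * (1 + Real.log D) := h
      _ = K * 1 * (1 + Real.log D) := by ring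
      _ ≤ Cf * Real.sqrt (NN x d) * (1 + Real.log D) ^ 19 := by gcongr
  rcases le_or_gt x 0 with hx | hx
  · -- x ≤ 0
    apply triv 1 (by norm_num) (by rw [hCf]; linarith)
    rw [one_mul]
    rcases hx.lt_or_eq with hx | hx
    · have h1 : |x| ≤ |d| := by
        have h2 : |x| ≤ |x| ^ 3 := le_self_pow₀ (Int.one_le_abs hx.ne) (by norm_num)
        have h3 : |x| ^ 3 = -x ^ 3 := by
          rw [abs_of_neg hx]; ring
        have h4 : -x ^ 3 ≤ d := by
          have := sq_nonneg y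
          linarith
        exact h2.trans (h3.le.trans (h4.trans (le_abs_self d)))
      have h5 : |(x : ℝ)| ≤ D := by rw [hD]; exact_mod_cast h1
      have h6 : 0 < |(x : ℝ)| := abs_pos.2 (by exact_mod_cast hx.ne)
      have := Real.log_le_log h6 h5
      linarith
    · rw [hx]; simp; linarith
  · have hxR : (0 : ℝ) < x := by exact_mod_cast hx
    rw [abs_of_pos hxR] at triv ⊢
    have hx1 : (1 : ℝ) ≤ x := by exact_mod_cast hx
    rcases le_or_gt (x : ℝ) (Cth * D) with hs | hs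
    · -- x small
      apply triv (1 + Real.log Cth) (by linarith) (by rw [hCf]; linarith)
      have h1 := Real.log_le_log hxR hs
      rw [Real.log_mul (by linarith) (by linarith)] at h1
      nlinarith
    · by_cases hint : ∀ n : ℤ, n ^ 3 - 3 * x * n + 2 * |y| ≠ 0
      · -- the main case
        rcases eq_or_ne y 0 with hy0 | hy0
        · -- y = 0
          exfalso
          have h1 : x ^ 3 = -d := by
            rw [hy0] at hxy; linarith
          have h2 : (x : ℝ) ^ 3 = D := by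
            rw [hD, ← abs_neg, ← Int.cast_neg, ← h1]
            push_cast
            rw [abs_of_pos (by positivity)]
          have h3 : (x : ℝ) ≤ (x : ℝ) ^ 3 := le_self_pow₀ hx1 (by norm_num)
          nlinarith
        · have hy1 : 0 < |y| := abs_pos.2 hy0
          have hxy' : |y| ^ 2 = x ^ 3 + d := by rw [sq_abs]; exact hxy
          have hmain := hp_one bk_FLD bk_KER bk_EMB3 bk_IDC C1 C2 C3 hC1 hC2 hRT hRED hNT x |y| d
            hd hxy' hy1 (by rw [← hD, ← hCth]; exact hs.le) hint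
          rw [← hD] at hmain
          rcases le_or_gt (Real.exp 1) (x : ℝ) with hxe | hxe
          · have h1 := hcalc (NN x d) D x hN1 hND hxe hmain
            have hlx : 1 ≤ Real.log x := by
              rw [Real.le_log_iff_exp_le hxR]; exact hxe
            have h2 := hcal D (Real.sqrt (NN x d)) (Real.log x) hD1 hsN (Real.sqrt_le_sqrt hND)
              hlx h1
            refine h2.trans ?_
            have : C5 ≤ Cf := by rw [hCf]; linarith
            gcongr
          · apply triv 1 (by norm_num) (by rw [hCf]; linarith)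
            have h1 := Real.log_le_log hxR hxe.le
            rw [Real.log_exp] at h1
            linarith
      · -- an integer root
        push Not at hint
        obtain ⟨n, hn⟩ := hint
        have hxy' : |y| ^ 2 = x ^ 3 + d := by rw [sq_abs]; exact hxy
        have h1 := bk_RDC x |y| d n hxy' hd hn
        rw [abs_of_pos hxR, ← hD] at h1
        apply triv (1 + Real.log 100) (by linarith) (by rw [hCf]; linarith)
        have h2 := Real.log_le_log hxR h1
        rw [Real.log_mul (by norm_num) (by linarith)] at h2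
        nlinarith

end Pool.Helper99.BK
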