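import Pool.Agent.Helper99.BK.Stmts
import Pool.Agent.Helper30.Hall.Form

set_option autoImplicit false

namespace Pool.Helper99.BK

theorem red_root (x y γ δ α β : ℤ) (hdet : α * δ - β * γ = 1)
    (h0 : δ ^ 3 - 3 * x * δ * γ ^ 2 - 2 * y * γ ^ 3 = 0) :
    ∃ n : ℤ, n ^ 3 - 3 * x * n + 2 * y = 0 := by
  have hco : IsCoprime γ (δ ^ 3) := IsCoprime.pow_right ⟨-β, α, by linarith⟩
  have hdvd : γ ∣ δ ^ 3 := ⟨3 * x * δ * γ + 2 * y * γ ^ 2, by linear_combination h0⟩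
  have hu : IsUnit γ := hco.isUnit_of_dvd' (dvd_refl _) hdvd
  rcases Int.isUnit_iff.1 hu with h | h
  · refine ⟨-δ, ?_⟩
    subst h
    linear_combination -h0
  · refine ⟨δ, ?_⟩
    subst h
    linear_combination h0

theorem st_RED : ST_RED := by
  refine ⟨400, by norm_num, ?_⟩
  intro x y d hd hd0 hy hx hn
  have hdR : (1 : ℝ) ≤ |(d : ℝ)| := by
    have : (1 : ℤ) ≤ |d| := Int.one_le_abs hd0
    exact_mod_cast this
  set D : ℝ := |(d : ℝ)| with hD
  have hx1 : (1 : ℝ) ≤ x := by linarith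
  have hxD : D ≤ x := by linarith
  set S : ℝ := Real.sqrt x with hS
  have hS1 : 1 ≤ S := Real.one_le_sqrt.2 hx1
  have hS0 : 0 < S := by linarith
  have hxS : (x : ℝ) = S ^ 2 := by rw [hS, Real.sq_sqrt (by linarith)]
  set A : ℝ := Real.sqrt (Real.sqrt D) with hA
  have hsD1 : 1 ≤ Real.sqrt D := Real.one_le_sqrt.2 hdR
  have hA1 : 1 ≤ A := Real.one_le_sqrt.2 hsD1
  have hA0 : 0 < A := by linarith
  have hA2 : A ^ 2 = Real.sqrt D := by rw [hA, Real.sq_sqrt (by linarith)]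
  have hA4 : A ^ 4 = D := by
    have : A ^ 4 = (A ^ 2) ^ 2 := by ring
    rw [this, hA2, Real.sq_sqrt (by linarith)]
  have hA2D : A ^ 2 ≤ D := by
    rw [← hA4]
    exact pow_le_pow_right₀ hA1 (by norm_num)
  have hAD : A ≤ D := by
    rw [← hA4]
    calc A = A ^ 1 := by ring
      _ ≤ A ^ 4 := pow_le_pow_right₀ hA1 (by norm_num)
  set V : ℝ := S / A with hV
  have hSV : S = A * V := by rw [hV]; field_simp
  have hV1 : 1 ≤ V := by
    rw [hV, le_div_iff₀ hA0, one_mul]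
    have h1 : A ^ 2 ≤ S ^ 2 := by rw [← hxS]; linarith
    exact (pow_le_pow_iff_left₀ hA0.le hS0.le (by norm_num)).1 h1
  have hV0 : 0 < V := by linarith
  set η : ℝ := (y : ℝ) - S ^ 3 with hη
  have hy' : (0 : ℝ) < y := by exact_mod_cast hy
  have hη1 : |η| * S ^ 3 ≤ D := by
    have h1 : η * (y + S ^ 3) = d := by
      have h2 : (y : ℝ) ^ 2 = (x : ℝ) ^ 3 + d := by exact_mod_cast hd
      rw [hxS] at h2
      rw [hη]
      linear_combination h2
    have h3 : |η| * (y + S ^ 3) = D := by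
      rw [hD, ← h1, abs_mul, abs_of_pos (by positivity : (0 : ℝ) < y + S ^ 3)]
    have h4 : |η| * S ^ 3 ≤ |η| * (y + S ^ 3) := by
      apply mul_le_mul_of_nonneg_left _ (abs_nonneg _)
      linarith
    linarith
  have hηV : |η| * V ^ 3 ≤ A := by
    have h1 : |η| * V ^ 3 = (|η| * S ^ 3) / A ^ 3 := by
      rw [hV]; field_simp
    rw [h1, div_le_iff₀ (by positivity)]
    calc |η| * S ^ 3 ≤ D := hη1
      _ = A * A ^ 3 := by rw [← hA4]; ring
  obtain ⟨α, β, γ, δ, hdet, q1, q2, hq1, hq2, hq14, hq12, b1, b2, b3, b4⟩ :=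
    Pool.Helper30.Hall.exists_reduced_basis S V hV0
  obtain ⟨ca, cb, cc, ce⟩ := Pool.Helper30.Hall.coeff_bounds x y α β γ δ S η A V q1 q2 hS0.le hxS
    (by rw [hη]; ring) hA1 hV1 hSV hηV hq1.le hq2 b1 b2 b3 b4
  have hq1le : q1 ≤ 2 := by
    by_contra h
    push Not at h
    have : (2 : ℝ) ^ 4 < q1 ^ 4 := pow_lt_pow_left₀ h (by norm_num) (by norm_num)
    norm_num at this
    linarith
  have hane : Pool.Helper30.Hall.cA x y γ δ ≠ 0 := by
    intro h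
    obtain ⟨n, hn'⟩ := red_root x y γ δ α β hdet h
    exact hn n hn'
  have ha1 : (1 : ℝ) ≤ |(Pool.Helper30.Hall.cA x y γ δ : ℝ)| := by
    have : (1 : ℤ) ≤ |Pool.Helper30.Hall.cA x y γ δ| := Int.one_le_abs hane
    exact_mod_cast this
  have hq13 : 1 ≤ 6 * A * q1 ^ 3 := ha1.trans ca
  have hpp : q1 * q2 ≤ 2 := by
    by_contra h
    push Not at h
    have : (2 : ℝ) ^ 2 < (q1 * q2) ^ 2 := pow_lt_pow_left₀ h (by norm_num) (by norm_num)
    have e : (q1 * q2) ^ 2 = q1 ^ 2 * q2 ^ 2 := by ring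
    rw [e] at this
    norm_num at this
    linarith
  have hpp0 : 0 ≤ q1 * q2 := by positivity
  -- bounds for the monomials
  have m1 : q1 ^ 3 ≤ 8 := by
    calc q1 ^ 3 ≤ 2 ^ 3 := pow_le_pow_left₀ hq1.le hq1le 3
      _ = 8 := by norm_num
  have m2 : q1 ^ 2 * q2 ≤ 4 := by
    calc q1 ^ 2 * q2 = q1 * (q1 * q2) := by ring
      _ ≤ 2 * 2 := by gcongr
      _ = 4 := by norm_num
  have m3 : q1 * q2 ^ 2 ≤ 8 * A := by
    rcases le_or_gt 1 q1 with h | h
    · calc q1 * q2 ^ 2 = 1 * (q1 * q2 ^ 2) := by ring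
        _ ≤ q1 * (q1 * q2 ^ 2) := by gcongr
        _ = q1 ^ 2 * q2 ^ 2 := by ring
        _ ≤ 4 / 3 := hq12
        _ ≤ 8 * A := by linarith
    · have h1 : q1 ^ 3 ≤ q1 := by
        calc q1 ^ 3 ≤ q1 ^ 1 := pow_le_pow_of_le_one hq1.le h.le (by norm_num)
          _ = q1 := by ring
      have h2 : 1 ≤ 6 * A * q1 := by
        have : 6 * A * q1 ^ 3 ≤ 6 * A * q1 := by gcongr
        linarith
      calc q1 * q2 ^ 2 = 1 * (q1 * q2 ^ 2) := by ring
        _ ≤ (6 * A * q1) * (q1 * q2 ^ 2) := by gcongr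
        _ = 6 * A * (q1 ^ 2 * q2 ^ 2) := by ring
        _ ≤ 6 * A * (4 / 3) := by gcongr
        _ = 8 * A := by ring
  have m4 : q2 ^ 3 ≤ 48 * A := by
    calc q2 ^ 3 = 1 * q2 ^ 3 := by ring
      _ ≤ (6 * A * q1 ^ 3) * q2 ^ 3 := by gcongr
      _ = 6 * A * (q1 * q2) ^ 3 := by ring
      _ ≤ 6 * A * 2 ^ 3 := by gcongr
      _ = 48 * A := by ring
  refine ⟨α, β, γ, δ, Pool.Helper30.Hall.cA x y γ δ, Pool.Helper30.Hall.cB x y α β γ δ,
    Pool.Helper30.Hall.cC x y α β γ δ, Pool.Helper30.Hall.cE x y α β, hdet, rfl, rfl, rfl, rfl,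
    hane, ?_, ?_, ?_, ?_, ?_, ?_⟩
  · calc _ ≤ 6 * A * q1 ^ 3 := ca
      _ ≤ 6 * A * 8 := by gcongr
      _ ≤ 400 * D := by linarith
  · calc _ ≤ 18 * A * (q1 ^ 2 * q2) := cb
      _ ≤ 18 * A * 4 := by gcongr
      _ ≤ 400 * D := by linarith
  · calc _ ≤ 18 * A * (q1 * q2 ^ 2) := cc
      _ ≤ 18 * A * (8 * A) := by gcongr
      _ = 144 * A ^ 2 := by ring
      _ ≤ 400 * D := by linarith
  · calc _ ≤ 6 * A * q2 ^ 3 := ce
      _ ≤ 6 * A * (48 * A) := by gcongr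
      _ = 288 * A ^ 2 := by ring
      _ ≤ 400 * D := by linarith
  · have hVS : V ≤ S := by
      rw [hSV]
      nlinarith
    have hSx : S ≤ x := by rw [hxS]; nlinarith
    calc |(γ : ℝ)| ≤ V * q1 := b2
      _ ≤ S * 2 := by gcongr
      _ ≤ 400 * x := by linarith
  · have hVS : V ≤ S := by
      rw [hSV]
      nlinarith
    have h1 : |(δ : ℝ)| ≤ |(δ : ℝ) + S * γ| + S * |(γ : ℝ)| := by
      have : (δ : ℝ) = (δ + S * γ) - S * γ := by ring
      calc |(δ : ℝ)| = |(δ + S * γ) - S * γ| := by rw [← this]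
        _ ≤ |(δ : ℝ) + S * γ| + |S * γ| := abs_sub _ _
        _ = _ := by rw [abs_mul, abs_of_pos hS0]
    have h2 : q1 / V ≤ 2 := by
      rw [div_le_iff₀ hV0]
      linarith
    have h3 : S * |(γ : ℝ)| ≤ 2 * x := by
      calc S * |(γ : ℝ)| ≤ S * (S * 2) := by
            apply mul_le_mul_of_nonneg_left _ hS0.le
            calc |(γ : ℝ)| ≤ V * q1 := b2
              _ ≤ S * 2 := by gcongr
        _ = 2 * x := by rw [hxS]; ring
    linarith

end Pool.Helper99.BK
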